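import Pool.Agent.P8H81.LP.Defs

/-!
# Project LP: package KER, the heat kernel of the difference walk is at most `1 / n`
-/

set_option autoImplicit false

namespace Pool.Agent.P8H46.LP

open Finset Pool.Agent.P8H81.LP

/-- one-dimensional average -/
noncomputable def B (φ : ℤ → ℝ) (m : ℤ) : ℝ := (φ (m + 1) + φ (m - 1)) / 2

lemma pascal_sum (N : ℕ) (F : ℕ → ℝ) :
    ∑ i ∈ range (N + 2), ((N + 1).choose i : ℝ) * F i =
      ∑ i ∈ range (N + 1), (N.choose i : ℝ) * F i +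
        ∑ i ∈ range (N + 1), (N.choose i : ℝ) * F (i + 1) := by
  rw [Finset.sum_range_succ']
  have h1 : ∀ i ∈ range (N + 1), ((N + 1).choose (i + 1) : ℝ) * F (i + 1) =
      (N.choose i : ℝ) * F (i + 1) + (N.choose (i + 1) : ℝ) * F (i + 1) := by
    intro i _
    rw [Nat.choose_succ_succ]
    push_cast
    ring
  rw [Finset.sum_congr rfl h1, Finset.sum_add_distrib]
  have h2 := Finset.sum_range_succ' (fun i => (N.choose i : ℝ) * F i) (N + 1)
  rw [Finset.sum_range_succ] at h2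
  simp only [Nat.choose_succ_self, Nat.cast_zero, zero_mul, add_zero, Nat.choose_zero_right,
    Nat.cast_one, one_mul] at h2 ⊢
  linarith

lemma B_iter (φ : ℤ → ℝ) (N : ℕ) : ∀ m : ℤ,
    B^[N] φ m = (∑ i ∈ range (N + 1), (N.choose i : ℝ) * φ (m + N - 2 * i)) / 2 ^ N := by
  induction N with
  | zero => intro m; simp
  | succ N ih =>
    intro m
    rw [Function.iterate_succ_apply', B, ih, ih, pascal_sum, pow_succ]
    have h1 : ∑ i ∈ range (N + 1), (N.choose i : ℝ) * φ (m + 1 + N - 2 * i) =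
        ∑ i ∈ range (N + 1), (N.choose i : ℝ) * φ (m + ((N + 1 : ℕ) : ℤ) - 2 * (i : ℤ)) := by
      refine Finset.sum_congr rfl fun i _ => ?_
      congr 2
      push_cast
      ring
    have h2 : ∑ i ∈ range (N + 1), (N.choose i : ℝ) * φ (m - 1 + N - 2 * i) =
        ∑ i ∈ range (N + 1), (N.choose i : ℝ) *
          φ (m + ((N + 1 : ℕ) : ℤ) - 2 * ((i + 1 : ℕ) : ℤ)) := by
      refine Finset.sum_congr rfl fun i _ => ?_
      congr 2
      push_cast
      ring
    rw [h1, h2]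
    field_simp

/-- indicator of a point -/
noncomputable def dl (p m : ℤ) : ℝ := if m = p then 1 else 0

lemma dl_nonneg (p m : ℤ) : 0 ≤ dl p m := by
  unfold dl
  split_ifs <;> norm_num

lemma B_dl_nonneg (p : ℤ) (N : ℕ) (m : ℤ) : 0 ≤ B^[N] (dl p) m := by
  rw [B_iter]
  refine div_nonneg (Finset.sum_nonneg fun i _ => ?_) (by positivity)
  exact mul_nonneg (Nat.cast_nonneg _) (dl_nonneg _ _)

lemma B_dl_le (p : ℤ) (n : ℕ) (m : ℤ) :
    B^[2 * n] (dl p) m ≤ (Nat.centralBinom n : ℝ) / 4 ^ n := by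
  rw [B_iter, pow_mul, show (2 : ℝ) ^ 2 = 4 by norm_num]
  refine div_le_div_of_nonneg_right ?_ (by positivity)
  by_cases h : ∃ j ∈ range (2 * n + 1), m + ((2 * n : ℕ) : ℤ) - 2 * (j : ℤ) = p
  · obtain ⟨j, hj, hjp⟩ := h
    rw [Finset.sum_eq_single j]
    · unfold dl
      rw [if_pos hjp, mul_one]
      exact_mod_cast Nat.choose_le_centralBinom j n
    · intro i _ hij
      unfold dl
      rw [if_neg, mul_zero]
      intro h
      apply hij
      omega
    · intro h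
      exact absurd hj h
  · push Not at h
    rw [Finset.sum_eq_zero]
    · exact Nat.cast_nonneg _
    · intro i hi
      unfold dl
      rw [if_neg (h i hi), mul_zero]

lemma cb_bound (n : ℕ) : Nat.centralBinom n ^ 2 * (2 * n + 1) ≤ 16 ^ n := by
  induction n with
  | zero => simp
  | succ n ih =>
    have h := Nat.succ_mul_centralBinom_succ n
    have h1 : (n + 1) ^ 2 * (Nat.centralBinom (n + 1) ^ 2 * (2 * (n + 1) + 1)) =
        4 * ((2 * n + 1) * (2 * n + 3)) * (Nat.centralBinom n ^ 2 * (2 * n + 1)) := by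
      have h2 : ((n + 1) * Nat.centralBinom (n + 1)) ^ 2 =
          (2 * (2 * n + 1) * Nat.centralBinom n) ^ 2 := by rw [h]
      calc (n + 1) ^ 2 * (Nat.centralBinom (n + 1) ^ 2 * (2 * (n + 1) + 1))
          = ((n + 1) * Nat.centralBinom (n + 1)) ^ 2 * (2 * (n + 1) + 1) := by ring
        _ = (2 * (2 * n + 1) * Nat.centralBinom n) ^ 2 * (2 * (n + 1) + 1) := by rw [h2]
        _ = _ := by ring
    have h3 : (2 * n + 1) * (2 * n + 3) ≤ 4 * (n + 1) ^ 2 := by nlinarith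
    have h4 : (n + 1) ^ 2 * (Nat.centralBinom (n + 1) ^ 2 * (2 * (n + 1) + 1)) ≤
        (n + 1) ^ 2 * 16 ^ (n + 1) := by
      rw [h1]
      calc 4 * ((2 * n + 1) * (2 * n + 3)) * (Nat.centralBinom n ^ 2 * (2 * n + 1))
          ≤ 4 * (4 * (n + 1) ^ 2) * 16 ^ n :=
            Nat.mul_le_mul (Nat.mul_le_mul_left 4 h3) ih
        _ = (n + 1) ^ 2 * 16 ^ (n + 1) := by ring
    exact Nat.le_of_mul_le_mul_left h4 (by positivity)

lemma cb_sq (n : ℕ) (hn : 1 ≤ n) :
    (Nat.centralBinom n : ℝ) / 4 ^ n * ((Nat.centralBinom n : ℝ) / 4 ^ n) ≤ 1 / n := by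
  have h := cb_bound n
  have h' : (Nat.centralBinom n : ℝ) ^ 2 * (2 * n + 1) ≤ 16 ^ n := by exact_mod_cast h
  have hn' : (0 : ℝ) < n := by exact_mod_cast hn
  have h16 : (16 : ℝ) ^ n = 4 ^ n * 4 ^ n := by
    rw [← mul_pow]
    norm_num
  rw [div_mul_div_comm, div_le_div_iff₀ (by positivity) hn', one_mul, ← h16]
  have h2 : (0 : ℝ) ≤ (Nat.centralBinom n : ℝ) ^ 2 := by positivity
  nlinarith

/-- the product of functions of the two diagonal coordinates -/
noncomputable def pr (φ ψ : ℤ → ℝ) (z : Fin 2 → ℤ) : ℝ := φ (z 0 + z 1) * ψ (z 0 - z 1)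

lemma TT_pr (φ ψ : ℤ → ℝ) : TT (pr φ ψ) = pr (B (B φ)) (B (B ψ)) := by
  funext z
  simp only [TT, pr, B, stp, Fintype.sum_prod_type, Fin.sum_univ_two, Fintype.sum_bool,
    Pi.add_apply, Pi.sub_apply, Pi.single_eq_same, if_true, Bool.false_eq_true, if_false,
    Pi.single_eq_of_ne (show (1 : Fin 2) ≠ 0 by decide),
    Pi.single_eq_of_ne (show (0 : Fin 2) ≠ 1 by decide)]
  ring_nf

lemma TT_iter_pr (n : ℕ) : ∀ φ ψ : ℤ → ℝ,
    TT^[n] (pr φ ψ) = pr (B^[2 * n] φ) (B^[2 * n] ψ) := by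
  induction n with
  | zero => intro φ ψ; rfl
  | succ n ih =>
    intro φ ψ
    rw [Function.iterate_succ_apply, TT_pr, ih]
    rfl

lemma TT_mono {f g : (Fin 2 → ℤ) → ℝ} (h : ∀ z, f z ≤ g z) (z : Fin 2 → ℤ) : TT f z ≤ TT g z := by
  unfold TT
  refine mul_le_mul_of_nonneg_left ?_ (by norm_num)
  exact Finset.sum_le_sum fun e _ => Finset.sum_le_sum fun e' _ => h _

lemma TT_iter_mono (n : ℕ) : ∀ {f g : (Fin 2 → ℤ) → ℝ}, (∀ z, f z ≤ g z) →
    ∀ z, TT^[n] f z ≤ TT^[n] g z := by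
  induction n with
  | zero => intro f g h z; exact h z
  | succ n ih =>
    intro f g h z
    rw [Function.iterate_succ_apply, Function.iterate_succ_apply]
    exact ih (TT_mono h) z

lemma TT_lin {ι : Type} (S : Finset ι) (c : ι → ℝ) (F : ι → (Fin 2 → ℤ) → ℝ) (M : ℝ) :
    TT (fun z => ∑ y ∈ S, c y * F y z + M) = fun z => ∑ y ∈ S, c y * TT (F y) z + M := by
  funext z
  unfold TT
  have h1 : ∀ e e' : Fin 2 × Bool, ∑ y ∈ S, c y * F y (z + stp e - stp e') + M =
      ∑ y ∈ S, c y * F y (z + stp e - stp e') + M := fun _ _ => rfl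
  simp only [Finset.sum_add_distrib, Finset.sum_const, Finset.card_univ, Fintype.card_prod,
    Fintype.card_fin, Fintype.card_bool, nsmul_eq_mul]
  have h2 : ∑ e : Fin 2 × Bool, ∑ e' : Fin 2 × Bool, ∑ y ∈ S, c y * F y (z + stp e - stp e') =
      ∑ y ∈ S, c y * ∑ e : Fin 2 × Bool, ∑ e' : Fin 2 × Bool, F y (z + stp e - stp e') := by
    rw [Finset.sum_congr rfl fun e _ => Finset.sum_comm, Finset.sum_comm]
    refine Finset.sum_congr rfl fun y _ => ?_
    rw [Finset.mul_sum]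
    refine Finset.sum_congr rfl fun e _ => ?_
    rw [Finset.mul_sum]
  rw [h2, mul_add, Finset.mul_sum]
  congr 1
  · refine Finset.sum_congr rfl fun y _ => ?_
    ring
  · push_cast
    ring

lemma TT_iter_lin {ι : Type} (S : Finset ι) (c : ι → ℝ) (M : ℝ) (n : ℕ) :
    ∀ F : ι → (Fin 2 → ℤ) → ℝ,
    TT^[n] (fun z => ∑ y ∈ S, c y * F y z + M) = fun z => ∑ y ∈ S, c y * TT^[n] (F y) z + M := by
  induction n with
  | zero => intro F; rfl
  | succ n ih =>
    intro F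
    rw [Function.iterate_succ_apply, TT_lin, ih]
    rfl

theorem ker : TaskKer := by
  intro n hn f S M hf hM hS z
  let F : (Fin 2 → ℤ) → (Fin 2 → ℤ) → ℝ := fun y => pr (dl (y 0 + y 1)) (dl (y 0 - y 1))
  have hF0 : ∀ y z, 0 ≤ F y z := fun y z => mul_nonneg (dl_nonneg _ _) (dl_nonneg _ _)
  have hF1 : ∀ y, F y y = 1 := by
    intro y
    simp [F, pr, dl]
  have h1 : ∀ z, f z ≤ ∑ y ∈ S, f y * F y z + M := by
    intro z
    by_cases hz : z ∈ S
    · have h2 : f z * F z z ≤ ∑ y ∈ S, f y * F y z :=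
        Finset.single_le_sum (f := fun y => f y * F y z)
          (fun y _ => mul_nonneg (hf y) (hF0 y z)) hz
      rw [hF1, mul_one] at h2
      linarith
    · have h2 : 0 ≤ ∑ y ∈ S, f y * F y z :=
        Finset.sum_nonneg fun y _ => mul_nonneg (hf y) (hF0 y z)
      have h3 := hS z hz
      linarith
  refine (TT_iter_mono n h1 z).trans ?_
  rw [TT_iter_lin]
  have h4 : ∀ y, TT^[n] (F y) z ≤ 1 / n := by
    intro y
    show TT^[n] (pr (dl (y 0 + y 1)) (dl (y 0 - y 1))) z ≤ 1 / n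
    rw [TT_iter_pr]
    exact (mul_le_mul (B_dl_le _ n _) (B_dl_le _ n _) (B_dl_nonneg _ _ _) (by positivity)).trans
      (cb_sq n hn)
  have h5 : ∑ y ∈ S, f y * TT^[n] (F y) z ≤ (1 / (n : ℝ)) * ∑ y ∈ S, f y := by
    rw [Finset.mul_sum]
    refine Finset.sum_le_sum fun y _ => ?_
    rw [mul_comm (1 / (n : ℝ))]
    exact mul_le_mul_of_nonneg_left (h4 y) (hf y)
  linarith

end Pool.Agent.P8H46.LP
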